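import Pool.Agent.V11152.MOj

namespace Pool.Agent.Results.MP_5d0678_co.MRDIff

section defs

variable (k K : Type) [Field k] [Fintype k] [Field K] [Algebra k K]

/-- The code `C_{δ,s}`: all `k`-linear maps of the form
`x ↦ a x + b (x^(q^s) + δ x^(q^(4+s)))` with `a, b ∈ K`, where `q = |k|`. -/
def code (δ : K) (s : ℕ) : Submodule k (K →ₗ[k] K) where
  carrier := {g | ∃ a b : K, ∀ x : K,
    g x = a * x + b * (x ^ (Fintype.card k ^ s) + δ * x ^ (Fintype.card k ^ (4 + s)))}
  add_mem' := by
    rintro g g' ⟨a, b, h⟩ ⟨a', b', h'⟩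
    refine ⟨a + a', b + b', fun x => ?_⟩
    rw [LinearMap.add_apply, h, h']; ring
  zero_mem' := ⟨0, 0, fun x => by simp⟩
  smul_mem' := by
    rintro c g ⟨a, b, h⟩
    refine ⟨c • a, c • b, fun x => ?_⟩
    rw [LinearMap.smul_apply, h]
    simp only [Algebra.smul_def]; ring

/-- The minimum distance of a code: the least rank of a nonzero element. -/
noncomputable def minDist (C : Submodule k (K →ₗ[k] K)) : ℕ :=
  sInf {r | ∃ g ∈ C, g ≠ 0 ∧ Module.finrank k (LinearMap.range g) = r}

/-- A code of `8 × 8` matrices is MRD if equality holds in the Singleton-like bound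
`dim C ≤ 8 (8 - d + 1)`, where `d` is the minimum distance. -/
def IsMRD (C : Submodule k (K →ₗ[k] K)) : Prop :=
  Module.finrank k C = 8 * (8 - minDist k K C + 1)

end defs

section proof

variable {k K : Type} [Field k] [Fintype k] [Field K] [Algebra k K]

theorem pow_addq (i : ℕ) (x y : K) :
    (x + y) ^ (Fintype.card k ^ i) = x ^ (Fintype.card k ^ i) + y ^ (Fintype.card k ^ i) := by
  obtain ⟨p, hp⟩ := CharP.exists k
  obtain ⟨n, hpr, hn⟩ := FiniteField.card k p
  have : Fact p.Prime := ⟨hpr⟩
  have : CharP K p := charP_of_injective_algebraMap (algebraMap k K).injective p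
  rw [hn, ← pow_mul]
  exact add_pow_char_pow x y p _

theorem smul_powq (i : ℕ) (c : k) (x : K) :
    (c • x) ^ (Fintype.card k ^ i) = c • x ^ (Fintype.card k ^ i) := by
  rw [smul_pow, FiniteField.pow_card_pow]

/-- the Frobenius power as a linear map -/
def frob (i : ℕ) : K →ₗ[k] K where
  toFun x := x ^ (Fintype.card k ^ i)
  map_add' := pow_addq i
  map_smul' := smul_powq i

/-- the Frobenius power as a ring homomorphism -/
def frobR (i : ℕ) : K →+* K where
  toFun x := x ^ (Fintype.card k ^ i)
  map_one' := one_pow _
  map_mul' x y := mul_pow x y _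
  map_zero' := zero_pow (pow_pos Fintype.card_pos i).ne'
  map_add' := pow_addq (k := k) i

/-- the parametrisation of the code -/
def par (δ : K) (s : ℕ) : K × K →ₗ[k] (K →ₗ[k] K) where
  toFun p := LinearMap.mulLeft k p.1 +
    (LinearMap.mulLeft k p.2).comp (frob s + (LinearMap.mulLeft k δ).comp (frob (4 + s)))
  map_add' p p' := by
    ext x
    simp only [LinearMap.add_apply, LinearMap.comp_apply, LinearMap.mulLeft_apply, Prod.fst_add,
      Prod.snd_add]
    ring
  map_smul' c p := by
    ext x
    show (c • p.1) * x + (c • p.2) * (frob s x + δ * frob (4 + s) x)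
      = c • (p.1 * x + p.2 * (frob s x + δ * frob (4 + s) x))
    rw [smul_mul_assoc, smul_mul_assoc, smul_add]

theorem par_apply (δ : K) (s : ℕ) (p : K × K) (x : K) :
    (par (k := k) δ s p) x = p.1 * x + p.2 * (x ^ (Fintype.card k ^ s)
      + δ * x ^ (Fintype.card k ^ (4 + s))) := rfl

theorem par_range (δ : K) (s : ℕ) :
    LinearMap.range (par (k := k) δ s) = code k K δ s := by
  ext g
  rw [LinearMap.mem_range]
  constructor
  · rintro ⟨p, rfl⟩
    exact ⟨p.1, p.2, fun x => par_apply δ s p x⟩
  · rintro ⟨a, b, h⟩
    refine ⟨(a, b), ?_⟩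
    ext x
    rw [par_apply, h]

end proof

/-- Let `k` be a finite field of odd order `q`, `K` its extension of degree `8`, `δ ∈ K` nonzero
and `s ∈ {1, 3, 5, 7}`.  Then the code `C_{δ,s}` has dimension `16` over `k`, and it is MRD if and
only if the norm `δ^(1+q^4)` equals `-1`. -/
theorem result (k K : Type) [Field k] [Fintype k] [Field K] [Algebra k K]
    (hq : Odd (Fintype.card k)) (hK : Module.finrank k K = 8) (δ : K) (hδ : δ ≠ 0) (s : ℕ)
    (hs : s = 1 ∨ s = 3 ∨ s = 5 ∨ s = 7) :
    Module.finrank k (code k K δ s) = 16 ∧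
    (IsMRD k K (code k K δ s) ↔ δ ^ (1 + Fintype.card k ^ 4) = -1) := by
  classical
  have hfin : Module.Finite k K := Module.finite_of_finrank_pos (by rw [hK]; norm_num)
  have hfinK : Finite K := Module.finite_of_finite k
  let _ : Fintype K := Fintype.ofFinite K
  have h2 : (2 : K) ≠ 0 := by
    intro h0
    have h1 : (2 : k) = 0 := by
      apply (algebraMap k K).injective
      rw [map_ofNat, map_zero]; exact h0
    have h3 : ringChar k = 2 :=
      CharP.ringChar_of_prime_eq_zero Nat.prime_two (by exact_mod_cast h1)
    have h5 := FiniteField.even_card_of_char_two h3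
    rw [Nat.odd_iff] at hq
    omega
  set q := Fintype.card k with hqd
  have hcard : Fintype.card K = q ^ 8 := by
    rw [Module.card_eq_pow_finrank (K := k) (V := K), hK]
  have hq1 : 1 < q := Fintype.one_lt_card
  obtain ⟨j, hj⟩ : ∃ j, s = 2 * j + 1 := by
    rcases hs with rfl | rfl | rfl | rfl
    · exact ⟨0, rfl⟩
    · exact ⟨1, rfl⟩
    · exact ⟨2, rfl⟩
    · exact ⟨3, rfl⟩
  have hpow : ∀ x : K, ∀ i : ℕ, x ^ (q ^ (8 * i)) = x := by
    intro x i
    rw [pow_mul, ← hcard]
    exact FiniteField.pow_card_pow i x
  set σ : K →+* K := frobR (k := k) s with hσd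
  have hσ : ∀ x, σ x = x ^ (q ^ s) := fun x => rfl
  have hσ4 : ∀ x, σ (σ (σ (σ x))) = x ^ (q ^ 4) := by
    intro x
    rw [hσ, hσ, hσ, hσ, ← pow_mul, ← pow_mul, ← pow_mul, ← pow_add, ← pow_add, ← pow_add]
    rw [show s + (s + (s + s)) = 8 * j + 4 by omega]
    rw [pow_add q, pow_mul x, hpow]
  have hσ8 : ∀ x, σ (σ (σ (σ (σ (σ (σ (σ x))))))) = x := by
    intro x
    rw [hσ4, hσ4, ← pow_mul, ← pow_add]
    exact hpow x 1
  have hσ4ne : ∃ x, σ (σ (σ (σ x))) ≠ x := by
    by_contra hno
    push Not at hno
    have h1 : (Polynomial.X ^ (q ^ 4) - Polynomial.X : Polynomial K) = 0 := by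
      apply Polynomial.eq_zero_of_natDegree_lt_card_of_eval_eq_zero _ Function.injective_id
      · intro x
        have := hno x
        rw [hσ4] at this
        simp [this]
      · rw [FiniteField.X_pow_card_sub_X_natDegree_eq K (Nat.one_lt_pow (by norm_num) hq1), hcard]
        exact Nat.pow_lt_pow_right hq1 (by norm_num)
    exact FiniteField.X_pow_card_sub_X_ne_zero K (Nat.one_lt_pow (by norm_num) hq1) h1
  have hσ5 : ∀ x, σ (σ (σ (σ (σ x)))) = x ^ (q ^ (4 + s)) := by
    intro x
    rw [hσ4, hσ, ← pow_mul, ← pow_add, add_comm s 4]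
  have hnorm : δ * σ (σ (σ (σ δ))) = δ ^ (1 + q ^ 4) := by
    rw [hσ4, pow_add, pow_one]
  -- fixed points of `σ` lie in `k`
  have hfixed : ∀ t : K, σ t = t → ∃ c : k, t = algebraMap k K c := by
    intro t ht
    have hit : ∀ i : ℕ, t ^ (q ^ (s * i)) = t := by
      intro i
      induction i with
      | zero => simp
      | succ i ih =>
        rw [Nat.mul_succ, pow_add, pow_mul, ih, ← hσ, ht]
    have htq : t ^ q = t := by
      have h1 := hit s
      obtain ⟨i, hi⟩ : ∃ i, s * s = 8 * i + 1 := by
        rcases hs with rfl | rfl | rfl | rfl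
        · exact ⟨0, rfl⟩
        · exact ⟨1, rfl⟩
        · exact ⟨3, rfl⟩
        · exact ⟨6, rfl⟩
      rw [hi, pow_add, pow_one, pow_mul, hpow] at h1
      exact h1
    by_contra hno
    push Not at hno
    have h1 : (Polynomial.X ^ q - Polynomial.X : Polynomial K) = 0 := by
      have hinj : Function.Injective
          (fun o : Option k => o.elim t (fun c => algebraMap k K c)) := by
        rintro (_ | c) (_ | d) h
        · rfl
        · exact absurd h (hno d)
        · exact absurd h.symm (hno c)
        · exact congrArg some ((algebraMap k K).injective h)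
      apply Polynomial.eq_zero_of_natDegree_lt_card_of_eval_eq_zero _ hinj
      · rintro (_ | c)
        · simp [htq]
        · simp only [Option.elim, Polynomial.eval_sub, Polynomial.eval_pow, Polynomial.eval_X]
          rw [← map_pow, FiniteField.pow_card, sub_self]
      · rw [FiniteField.X_pow_card_sub_X_natDegree_eq K hq1, Fintype.card_option]
        omega
    exact FiniteField.X_pow_card_sub_X_ne_zero K hq1 h1
  -- the parametrisation is injective
  have hinj : Function.Injective (Pool.Agent.Results.MP_5d0678_co.MRDIff.par (k := k) δ s) := by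
    rw [← LinearMap.ker_eq_bot, LinearMap.ker_eq_bot']
    rintro ⟨a, b⟩ hp
    have h1 := V11152.MO.ded8 σ hσ8 hσ4ne (a := ![a, b, 0, 0, 0, b * δ, 0, 0]) (by
      intro x
      have h3 : a * x + b * (x ^ (q ^ s) + δ * x ^ (q ^ (4 + s))) = 0 := by
        have := LinearMap.congr_fun hp x
        rw [par_apply] at this
        exact this
      rw [← hσ5, ← hσ] at h3
      simp only [Fin.sum_univ_eight]
      simp [pow_succ]
      linear_combination h3)
    have ha : a = 0 := h1 0
    have hb : b = 0 := h1 1
    rw [ha, hb]; rfl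
  have hdim : Module.finrank k (code k K δ s) = 16 := by
    rw [← par_range, LinearMap.finrank_range_of_inj hinj, Module.finrank_prod, hK]
  refine ⟨hdim, ?_⟩
  rw [← hnorm]
  constructor
  · -- not MRD unless the norm is `-1`
    intro hM
    by_contra hne
    obtain ⟨a, x0, t, hx0, ht, e1, e2⟩ := V11152.MO.main σ hσ8 hσ4ne h2 hδ hne
    rw [hσ5, hσ] at e1 e2
    set g : K →ₗ[k] K := par (k := k) δ s (a, 1) with hg
    have hgx : ∀ x, g x = a * x + (x ^ (q ^ s) + δ * x ^ (q ^ (4 + s))) := by
      intro x
      rw [hg, par_apply, one_mul]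
    have hgmem : g ∈ code k K δ s := by
      rw [← par_range]; exact ⟨_, rfl⟩
    have hg0 : g ≠ 0 := by
      intro h
      have := hinj (h.trans (map_zero (par (k := k) δ s)).symm)
      exact one_ne_zero (congrArg Prod.snd this)
    have hker : 2 ≤ Module.finrank k (LinearMap.ker g) := by
      have m1 : x0 ∈ LinearMap.ker g := by
        rw [LinearMap.mem_ker, hgx]; linear_combination e1
      have m2 : t * x0 ∈ LinearMap.ker g := by
        rw [LinearMap.mem_ker, hgx]; linear_combination e2
      have hli : LinearIndependent k ![(⟨x0, m1⟩ : LinearMap.ker g), ⟨t * x0, m2⟩] := by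
        rw [LinearIndependent.pair_iff]
        intro c d h
        have h1 : c • x0 + d • (t * x0) = 0 := congrArg Subtype.val h
        simp only [Algebra.smul_def] at h1
        have h3 : algebraMap k K c + algebraMap k K d * t = 0 := by
          have : (algebraMap k K c + algebraMap k K d * t) * x0 = 0 := by linear_combination h1
          rcases mul_eq_zero.mp this with h | h
          · exact h
          · exact absurd h hx0
        have hd : d = 0 := by
          by_contra hd0
          apply ht
          have hd1 : algebraMap k K d ≠ 0 := by simpa using hd0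
          have h5 : t = algebraMap k K (-c / d) := by
            rw [map_div₀, map_neg, eq_div_iff hd1]
            linear_combination h3
          rw [hσ, h5, ← map_pow, hqd, FiniteField.pow_card_pow]
        rw [hd, map_zero, zero_mul, add_zero] at h3
        exact ⟨by simpa using h3, hd⟩
      have := hli.fintype_card_le_finrank
      simpa using this
    have hrank : Module.finrank k (LinearMap.range g) ≤ 6 := by
      have := LinearMap.finrank_range_add_finrank_ker g
      rw [hK] at this
      omega
    unfold IsMRD at hM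
    rw [hdim] at hM
    have hmin : minDist k K (code k K δ s) ≤ 6 :=
      le_trans (Nat.sInf_le ⟨g, hgmem, hg0, rfl⟩) hrank
    omega
  · -- the case of norm `-1`
    intro hc
    have hker : ∀ g ∈ code k K δ s, g ≠ 0 → Module.finrank k (LinearMap.ker g) ≤ 1 := by
      rintro g ⟨a, b, hg⟩ hg0
      by_cases hex : ∃ x0 : K, x0 ≠ 0 ∧ g x0 = 0
      · obtain ⟨x0, hx0, hgx0⟩ := hex
        apply finrank_le_one (⟨x0, LinearMap.mem_ker.mpr hgx0⟩ : LinearMap.ker g)
        rintro ⟨w, hw⟩
        rw [LinearMap.mem_ker] at hw
        by_cases hb : b = 0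
        · exfalso
          rw [hg, hb, zero_mul, add_zero] at hgx0
          have ha : a = 0 := (mul_eq_zero.mp hgx0).resolve_right hx0
          apply hg0
          ext x
          rw [hg, ha, hb]; simp
        · have ht : σ (w / x0) = w / x0 := by
            apply V11152.MO.converse σ hσ8 h2 (δ := δ) (a := a / b) (x0 := x0) (t := w / x0) hc hx0
            · rw [hg] at hgx0
              rw [hσ5, hσ]
              apply mul_left_cancel₀ hb
              rw [mul_zero, ← hgx0]
              field_simp
              ring
            · rw [div_mul_cancel₀ _ hx0]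
              rw [hg] at hw
              rw [hσ5, hσ]
              apply mul_left_cancel₀ hb
              rw [mul_zero, ← hw]
              field_simp
              ring
          obtain ⟨c, hc'⟩ := hfixed _ ht
          refine ⟨c, Subtype.ext ?_⟩
          show c • x0 = w
          rw [Algebra.smul_def, ← hc', div_mul_cancel₀ _ hx0]
      · push Not at hex
        have : LinearMap.ker g = ⊥ := by
          rw [LinearMap.ker_eq_bot']
          intro x hx
          by_contra h
          exact hex x h hx
        rw [this, finrank_bot]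
        norm_num
    have hlow : ∀ g ∈ code k K δ s, g ≠ 0 → 7 ≤ Module.finrank k (LinearMap.range g) := by
      intro g hg hg0
      have h1 := LinearMap.finrank_range_add_finrank_ker g
      have h3 := hker g hg hg0
      rw [hK] at h1
      omega
    set g : K →ₗ[k] K := par (k := k) δ s (-(1 + δ), 1) with hg
    have hgmem : g ∈ code k K δ s := by
      rw [← par_range]; exact ⟨_, rfl⟩
    have hg0 : g ≠ 0 := by
      intro h
      have := hinj (h.trans (map_zero (par (k := k) δ s)).symm)
      exact one_ne_zero (congrArg Prod.snd this)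
    have hg1 : g 1 = 0 := by
      rw [hg, par_apply]; simp
    have hkpos : 0 < Module.finrank k (LinearMap.ker g) := by
      rw [Module.finrank_pos_iff_exists_ne_zero]
      exact ⟨⟨1, LinearMap.mem_ker.mpr hg1⟩, fun h => one_ne_zero (congrArg Subtype.val h)⟩
    have hg7 : Module.finrank k (LinearMap.range g) = 7 := by
      have h1 := LinearMap.finrank_range_add_finrank_ker g
      have h3 := hlow g hgmem hg0
      rw [hK] at h1
      omega
    have hmin : minDist k K (code k K δ s) = 7 := by
      apply le_antisymm
      · exact Nat.sInf_le ⟨g, hgmem, hg0, hg7⟩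
      · unfold minDist
        refine le_csInf ⟨7, g, hgmem, hg0, hg7⟩ ?_
        rintro r ⟨g', hg', hg0', rfl⟩
        exact hlow g' hg' hg0'
    unfold IsMRD
    rw [hdim, hmin]

end Pool.Agent.Results.MP_5d0678_co.MRDIff
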